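import Pool.Agent.Helper89.Hia.Defs

/-! Block A (zones) of MP_5ace61_lc. -/

set_option autoImplicit false

open Set Cardinal Filter

namespace Pool.Agent.Hia

namespace ZoneProof

variable {X : Type} [LinearOrder X]

/-- points just after the cut `U` -/
noncomputable def Fp (U : Set X) : Filter X := ⨅ y ∈ U, 𝓟 {x | x ∈ U ∧ x < y}

/-- points just before the cut `U` -/
noncomputable def Fm (U : Set X) : Filter X := ⨅ y ∈ Uᶜ, 𝓟 {x | x ∉ U ∧ y < x}

theorem ev_Fp {U : Set X} (h : U.Nonempty) (P : X → Prop) :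
    (∀ᶠ x in Fp U, P x) ↔ ∃ y ∈ U, ∀ x ∈ U, x < y → P x := by
  have hb : (Fp U).HasBasis (fun y => y ∈ U) (fun y => {x | x ∈ U ∧ x < y}) := by
    apply Filter.hasBasis_biInf_principal _ h
    intro a ha b hb
    refine ⟨min a b, ?_, ?_, ?_⟩
    · rcases min_choice a b with h | h <;> rw [h] <;> assumption
    · rintro x ⟨h1, h2⟩
      exact ⟨h1, lt_of_lt_of_le h2 (min_le_left _ _)⟩
    · rintro x ⟨h1, h2⟩
      exact ⟨h1, lt_of_lt_of_le h2 (min_le_right _ _)⟩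
  rw [hb.eventually_iff]
  simp only [Set.mem_ofPred_eq, and_imp]

theorem ev_Fm {U : Set X} (h : (Uᶜ).Nonempty) (P : X → Prop) :
    (∀ᶠ x in Fm U, P x) ↔ ∃ y, y ∉ U ∧ ∀ x, x ∉ U → y < x → P x := by
  have hb : (Fm U).HasBasis (fun y => y ∈ Uᶜ) (fun y => {x | x ∉ U ∧ y < x}) := by
    apply Filter.hasBasis_biInf_principal _ h
    intro a ha b hb
    refine ⟨max a b, ?_, ?_, ?_⟩
    · rcases max_choice a b with h | h <;> rw [h] <;> assumption
    · rintro x ⟨h1, h2⟩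
      exact ⟨h1, lt_of_le_of_lt (le_max_left _ _) h2⟩
    · rintro x ⟨h1, h2⟩
      exact ⟨h1, lt_of_le_of_lt (le_max_right _ _) h2⟩
  rw [hb.eventually_iff]
  simp only [Set.mem_ofPred_eq, and_imp, Set.mem_compl_iff]

/-- `P` is decided by the filter -/
def Dec (F : Filter X) (P : X → Prop) : Prop := (∀ᶠ x in F, P x) ∨ (∀ᶠ x in F, ¬ P x)

omit [LinearOrder X] in
theorem Dec.and {F : Filter X} {P Q : X → Prop} (hP : Dec F P) (hQ : Dec F Q) :
    Dec F (fun x => P x ∧ Q x) := by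
  rcases hP with hP | hP
  · rcases hQ with hQ | hQ
    · exact Or.inl (hP.and hQ)
    · exact Or.inr (hQ.mono fun x hx h => hx h.2)
  · exact Or.inr (hP.mono fun x hx h => hx h.1)

omit [LinearOrder X] in
theorem Dec.exists_lt {F : Filter X} {P : ℕ → X → Prop} (n : ℕ) (h : ∀ i < n, Dec F (P i)) :
    Dec F (fun x => ∃ i < n, P i x) := by
  by_cases h1 : ∃ i < n, ∀ᶠ x in F, P i x
  · obtain ⟨i, hi, h1⟩ := h1
    exact Or.inl (h1.mono fun x hx => ⟨i, hi, hx⟩)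
  · right
    have h2 : ∀ i ∈ Set.Iio n, ∀ᶠ x in F, ¬ P i x := fun i hi => by
      rcases h i hi with h | h
      · exact absurd ⟨i, hi, h⟩ h1
      · exact h
    have h3 := (Filter.eventually_all_finite (Set.finite_Iio n)).2 h2
    refine h3.mono fun x hx => ?_
    rintro ⟨i, hi, h4⟩
    exact hx i hi h4

omit [LinearOrder X] in
theorem Dec.forall_lt {F : Filter X} {P : ℕ → X → Prop} (n : ℕ) (h : ∀ i < n, Dec F (P i)) :
    Dec F (fun x => ∀ i < n, P i x) := by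
  have h1 : Dec F (fun x => ∃ i < n, ¬ P i x) := Dec.exists_lt n fun i hi => by
    rcases h i hi with h | h
    · exact Or.inr (h.mono fun x hx => not_not.2 hx)
    · exact Or.inl h
  rcases h1 with h1 | h1
  · exact Or.inr (h1.mono fun x hx h => by obtain ⟨i, hi, hx⟩ := hx; exact hx (h i hi))
  · refine Or.inl (h1.mono fun x hx i hi => ?_)
    by_contra h2
    exact hx ⟨i, hi, h2⟩

omit [LinearOrder X] in
theorem Dec.const {F : Filter X} (p : Prop) : Dec F (fun _ => p) := by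
  by_cases h : p
  · exact Or.inl (Filter.Eventually.of_forall fun _ => h)
  · exact Or.inr (Filter.Eventually.of_forall fun _ => h)

omit [LinearOrder X] in
theorem Dec.imp {F : Filter X} (p : Prop) {P : X → Prop} (h : p → Dec F P) :
    Dec F (fun x => p → P x) := by
  by_cases hp : p
  · rcases h hp with h | h
    · exact Or.inl (h.mono fun x hx _ => hx)
    · exact Or.inr (h.mono fun x hx h2 => hx (h2 hp))
  · exact Or.inl (Filter.Eventually.of_forall fun x h => absurd h hp)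

omit [LinearOrder X] in
theorem Dec.and' {F : Filter X} (p : Prop) {P : X → Prop} (h : p → Dec F P) :
    Dec F (fun x => p ∧ P x) := by
  by_cases hp : p
  · rcases h hp with h | h
    · exact Or.inl (h.mono fun x hx => ⟨hp, hx⟩)
    · exact Or.inr (h.mono fun x hx h2 => hx h2.2)
  · exact Or.inr (Filter.Eventually.of_forall fun x h => hp h.1)

theorem zone_abs [Nonempty X] (hX : #X < splittingNumber) (J : Set ℕ) (U : ℕ → Set X)
    (hup : ∀ i ∈ J, ∀ x y, x ∈ U i → x ≤ y → y ∈ U i)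
    (hlo : ∀ i ∈ J, ∃ t : ℕ → X, (∀ k, t k ∉ U i) ∧ ∀ x, x ∉ U i → ∃ k, x < t k)
    (hhi : ∀ i ∈ J, ∃ t : ℕ → X, (∀ k, t k ∈ U i) ∧ ∀ x, x ∈ U i → ∃ k, t k < x) :
    ∃ z : ℕ → X, ∀ x, {i | i ∈ J ∧ ((z i ∉ U i ∧ z i < x ∧ x ∉ U i) ∨
      (z i ∈ U i ∧ x ∈ U i ∧ x < z i))}.Finite := by
  classical
  by_cases hJ : J = ∅
  · refine ⟨fun _ => Classical.arbitrary X, fun _ => ?_⟩
    simp [hJ]
  choose! tm htm1 htm2 using hlo
  choose! tp htp1 htp2 using hhi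
  have hneU : ∀ i ∈ J, (U i).Nonempty := fun i hi => ⟨tp i 0, htp1 i hi 0⟩
  have hneUc : ∀ i ∈ J, ((U i)ᶜ).Nonempty := fun i hi => ⟨tm i 0, htm1 i hi 0⟩
  -- comparability
  have hcomp : ∀ i ∈ J, ∀ j ∈ J, ∀ x, x ∈ U i → x ∉ U j → U j ⊂ U i := by
    intro i hi j hj x hxi hxj
    refine ⟨fun y hy => ?_, fun h => hxj (h hxi)⟩
    rcases le_total x y with h | h
    · exact hup i hi x y hxi h
    · exact absurd (hup j hj y x hy h) hxj
  have hd : ∀ i j, ∃ d, U j ⊂ U i → d ∈ U i ∧ d ∉ U j := by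
    intro i j
    by_cases h : U j ⊂ U i
    · obtain ⟨d, hd1, hd2⟩ := Set.exists_of_ssubset h
      exact ⟨d, fun _ => ⟨hd1, hd2⟩⟩
    · obtain ⟨i0, hi0⟩ := Set.nonempty_iff_ne_empty.2 hJ
      exact ⟨tp i0 0, fun h' => absurd h' h⟩
  choose d hd using hd
  set First : Set ℕ := {i | i ∈ J ∧ ∀ j ∈ J, j < i → U j ≠ U i} with hFirst
  set dn : ℕ → X → Prop := fun n x => ∃ i < n, i ∈ First ∧ (x ∈ U i ∧
    ∀ j < n, (j ∈ First ∧ U j ⊂ U i) → x < d i j) with hdn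
  -- (1)
  have h1p : ∀ m ∈ First, ∀ n, m < n → ∀ᶠ x in Fp (U m), dn n x := by
    intro m hm n hmn
    have hmJ := hm.1
    have h0 : ∀ᶠ x in Fp (U m), x ∈ U m := by
      rw [ev_Fp (hneU m hmJ)]
      exact ⟨tp m 0, htp1 m hmJ 0, fun x hx _ => hx⟩
    have h1 : ∀ j ∈ Set.Iio n, ∀ᶠ x in Fp (U m), (j ∈ First ∧ U j ⊂ U m) → x < d m j := by
      intro j _
      by_cases hj : j ∈ First ∧ U j ⊂ U m
      · rw [ev_Fp (hneU m hmJ)]
        exact ⟨d m j, (hd m j hj.2).1, fun x _ hx2 _ => hx2⟩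
      · exact Filter.Eventually.of_forall fun x h => absurd h hj
    have h2 := (Filter.eventually_all_finite (Set.finite_Iio n)).2 h1
    filter_upwards [h0, h2] with x hx0 hx2
    exact ⟨m, hmn, hm, hx0, fun j hj h => hx2 j hj h⟩
  have h1m : ∀ m ∈ First, ∀ n, m < n → ∀ᶠ x in Fm (U m), ¬ dn n x := by
    intro m hm n hmn
    have hmJ := hm.1
    have h0 : ∀ᶠ x in Fm (U m), x ∉ U m := by
      rw [ev_Fm (hneUc m hmJ)]
      exact ⟨tm m 0, htm1 m hmJ 0, fun x hx _ => hx⟩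
    have h1 : ∀ i ∈ Set.Iio n, ∀ᶠ x in Fm (U m), (i ∈ First ∧ U m ⊂ U i) → d i m < x := by
      intro i _
      by_cases hi : i ∈ First ∧ U m ⊂ U i
      · rw [ev_Fm (hneUc m hmJ)]
        exact ⟨d i m, (hd i m hi.2).2, fun x _ hx2 _ => hx2⟩
      · exact Filter.Eventually.of_forall fun x h => absurd h hi
    have h2 := (Filter.eventually_all_finite (Set.finite_Iio n)).2 h1
    filter_upwards [h0, h2] with x hx0 hx2
    rintro ⟨i, hi, hiF, hxi, h3⟩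
    have h4 := hcomp i hiF.1 m hmJ x hxi hx0
    exact lt_asymm (hx2 i hi ⟨hiF, h4⟩) (h3 m hmn ⟨hm, h4⟩)
  -- (2)
  have h2 : ∀ m ∈ First, ∀ n, n ≤ m → Dec (Fp (U m) ⊔ Fm (U m)) (dn n) := by
    intro m hm n hnm
    have hmJ := hm.1
    -- comparison with a point
    have hpt : ∀ e : X, Dec (Fp (U m) ⊔ Fm (U m)) (fun x => x < e) := by
      intro e
      by_cases he : e ∈ U m
      · left
        rw [Filter.eventually_sup, ev_Fp (hneU m hmJ), ev_Fm (hneUc m hmJ)]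
        refine ⟨⟨e, he, fun x _ h => h⟩, ⟨tm m 0, htm1 m hmJ 0, fun x hx _ => ?_⟩⟩
        by_contra h
        exact hx (hup m hmJ e x he (not_lt.1 h))
      · right
        rw [Filter.eventually_sup, ev_Fp (hneU m hmJ), ev_Fm (hneUc m hmJ)]
        refine ⟨⟨tp m 0, htp1 m hmJ 0, fun x hx _ h => ?_⟩, ⟨e, he, fun x _ h => lt_asymm h⟩⟩
        exact he (hup m hmJ x e hx h.le)
    have hU : ∀ i ∈ First, i < n → Dec (Fp (U m) ⊔ Fm (U m)) (fun x => x ∈ U i) := by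
      intro i hi hin
      have hne : U i ≠ U m := hm.2 i hi.1 (lt_of_lt_of_le hin hnm)
      by_cases hs : ∃ x, x ∈ U i ∧ x ∉ U m
      · obtain ⟨y, hy1, hy2⟩ := hs
        have hsub := (hcomp i hi.1 m hmJ y hy1 hy2).1
        left
        rw [Filter.eventually_sup, ev_Fp (hneU m hmJ), ev_Fm (hneUc m hmJ)]
        exact ⟨⟨tp m 0, htp1 m hmJ 0, fun x hx _ => hsub hx⟩,
          ⟨y, hy2, fun x _ h => hup i hi.1 y x hy1 h.le⟩⟩
      · push Not at hs
        have hs2 : ∃ y, y ∈ U m ∧ y ∉ U i := by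
          by_contra h
          push Not at h
          exact hne (Set.Subset.antisymm (fun x hx => hs x hx) (fun x hx => h x hx))
        obtain ⟨y, hy1, hy2⟩ := hs2
        right
        rw [Filter.eventually_sup, ev_Fp (hneU m hmJ), ev_Fm (hneUc m hmJ)]
        refine ⟨⟨y, hy1, fun x _ hxy hxi => hy2 (hup i hi.1 x y hxi hxy.le)⟩,
          ⟨tm m 0, htm1 m hmJ 0, fun x hx _ hxi => hx (hs x hxi)⟩⟩
    refine Dec.exists_lt n fun i hi => ?_
    refine Dec.and' _ fun hiF => ?_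
    refine Dec.and (hU i hiF hi) ?_
    refine Dec.forall_lt n fun j hj => ?_
    exact Dec.imp _ fun _ => hpt _
  -- splitting
  have hS : ∃ S : Set ℕ, S.Infinite ∧ ∀ x, (S ∩ {n | dn n x}).Finite ∨ (S \ {n | dn n x}).Finite := by
    by_contra hcon
    push Not at hcon
    set T : Set (Set ℕ) := {D | D.Infinite ∧ ∃ x, D = {n | dn n x}} with hT
    have hsp : IsSplitting T := by
      refine ⟨fun D hD => hD.1, fun A hA => ?_⟩
      obtain ⟨x, hx1, hx2⟩ := hcon A hA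
      exact ⟨{n | dn n x}, ⟨hx1.mono Set.inter_subset_right, x, rfl⟩, hx1, hx2⟩
    have hle : splittingNumber ≤ #T := csInf_le' ⟨T, hsp, rfl⟩
    have hle2 : #T ≤ #X := by
      have : T ⊆ Set.range (fun x => {n | dn n x}) := by
        rintro D ⟨_, x, rfl⟩
        exact ⟨x, rfl⟩
      exact (Cardinal.mk_le_mk_of_subset this).trans Cardinal.mk_range_le
    exact absurd (hle.trans hle2) (not_le.2 hX)
  obtain ⟨S, hSinf, hS⟩ := hS
  -- first index
  have hm : ∀ i ∈ J, ∃ m ∈ First, U m = U i := by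
    intro i hi
    have hex : ∃ m, m ∈ J ∧ U m = U i := ⟨i, hi, rfl⟩
    refine ⟨Nat.find hex, ⟨(Nat.find_spec hex).1, fun j hj hlt h => ?_⟩, (Nat.find_spec hex).2⟩
    exact Nat.find_min hex hlt ⟨hj, h.trans (Nat.find_spec hex).2⟩
  choose! μ hμF hμU using hm
  -- choice of z
  have hz : ∀ i ∈ J, ∃ z, ∀ x, ((z ∉ U i ∧ z < x ∧ x ∉ U i) ∨ (z ∈ U i ∧ x ∈ U i ∧ x < z)) →
      ((x ∈ U i → ∀ k ≤ i, x < tp (μ i) k) ∧ (x ∉ U i → ∀ k ≤ i, tm (μ i) k < x) ∧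
      (∀ a ∈ S, a ≤ μ i → (∀ b ∈ S, b ≤ μ i → b ≤ a) → ∃ a' ∈ S, μ i < a' ∧ (dn a x ↔ ¬ dn a' x))) := by
    intro i hi
    set m := μ i with hmdef
    have hmF : m ∈ First := hμF i hi
    have hmJ : m ∈ J := hmF.1
    have hUm : U m = U i := hμU i hi
    have htpE : ∀ᶠ x in Fp (U m), ∀ k ≤ i, x < tp m k := by
      have h1 : ∀ k ∈ Set.Iic i, ∀ᶠ x in Fp (U m), x < tp m k := by
        intro k _
        rw [ev_Fp (hneU m hmJ)]
        exact ⟨tp m k, htp1 m hmJ k, fun x _ h => h⟩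
      exact ((Filter.eventually_all_finite (Set.finite_Iic i)).2 h1).mono fun x hx k hk => hx k hk
    have htmE : ∀ᶠ x in Fm (U m), ∀ k ≤ i, tm m k < x := by
      have h1 : ∀ k ∈ Set.Iic i, ∀ᶠ x in Fm (U m), tm m k < x := by
        intro k _
        rw [ev_Fm (hneUc m hmJ)]
        exact ⟨tm m k, htm1 m hmJ k, fun x _ h => h⟩
      exact ((Filter.eventually_all_finite (Set.finite_Iic i)).2 h1).mono fun x hx k hk => hx k hk
    obtain ⟨a', ha'S, ha'm⟩ := hSinf.exists_gt m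
    by_cases hex : ∃ a ∈ S, a ≤ m ∧ (∀ b ∈ S, b ≤ m → b ≤ a)
    · obtain ⟨a, haS, ham, hamax⟩ := hex
      have huniq : ∀ b ∈ S, b ≤ m → (∀ c ∈ S, c ≤ m → c ≤ b) → b = a := fun b hb1 hb2 hb3 =>
        le_antisymm (hamax b hb1 hb2) (hb3 a haS ham)
      rcases h2 m hmF a ham with h | h
      · -- constant true near the cut; use lower side
        rw [Filter.eventually_sup] at h
        have h3 : ∀ᶠ x in Fm (U m), (∀ k ≤ i, tm m k < x) ∧ dn a x ∧ ¬ dn a' x := by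
          filter_upwards [htmE, h.2, h1m m hmF a' ha'm] with x hx1 hx2 hx3
          exact ⟨hx1, hx2, hx3⟩
        rw [ev_Fm (hneUc m hmJ)] at h3
        obtain ⟨z, hz1, hz2⟩ := h3
        rw [hUm] at hz1 hz2
        refine ⟨z, fun x hx => ?_⟩
        rcases hx with ⟨_, hx2, hx3⟩ | ⟨hx1, _⟩
        · obtain ⟨h4, h5, h6⟩ := hz2 x hx3 hx2
          refine ⟨fun hx => absurd hx hx3, fun _ => h4, fun b hb1 hb2 hb3 => ?_⟩
          rw [huniq b hb1 hb2 hb3]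
          exact ⟨a', ha'S, ha'm, iff_of_true h5 h6⟩
        · exact absurd hx1 hz1
      · rw [Filter.eventually_sup] at h
        have h3 : ∀ᶠ x in Fp (U m), (∀ k ≤ i, x < tp m k) ∧ ¬ dn a x ∧ dn a' x := by
          filter_upwards [htpE, h.1, h1p m hmF a' ha'm] with x hx1 hx2 hx3
          exact ⟨hx1, hx2, hx3⟩
        rw [ev_Fp (hneU m hmJ)] at h3
        obtain ⟨z, hz1, hz2⟩ := h3
        rw [hUm] at hz1 hz2
        refine ⟨z, fun x hx => ?_⟩
        rcases hx with ⟨hx1, _⟩ | ⟨_, hx2, hx3⟩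
        · exact absurd hz1 hx1
        · obtain ⟨h4, h5, h6⟩ := hz2 x hx2 hx3
          refine ⟨fun _ => h4, fun hx => absurd hx2 hx, fun b hb1 hb2 hb3 => ?_⟩
          rw [huniq b hb1 hb2 hb3]
          exact ⟨a', ha'S, ha'm, iff_of_false h5 (not_not.2 h6)⟩
    · rw [ev_Fp (hneU m hmJ)] at htpE
      obtain ⟨z, hz1, hz2⟩ := htpE
      rw [hUm] at hz1 hz2
      refine ⟨z, fun x hx => ?_⟩
      rcases hx with ⟨hx1, _⟩ | ⟨_, hx2, hx3⟩
      · exact absurd hz1 hx1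
      · refine ⟨fun _ => hz2 x hx2 hx3, fun hx => absurd hx2 hx, fun b hb1 hb2 hb3 => ?_⟩
        exact absurd ⟨b, hb1, hb2, hb3⟩ hex
  choose! z hz using hz
  refine ⟨z, fun x => ?_⟩
  -- threshold for x
  obtain ⟨n0, hn0S, hn0⟩ : ∃ n0 ∈ S, ∀ a ∈ S, ∀ a' ∈ S, n0 ≤ a → n0 ≤ a' → ¬ (dn a x ↔ ¬ dn a' x) := by
    rcases hS x with h | h
    · obtain ⟨N, hN⟩ := h.bddAbove
      obtain ⟨n0, hn0S, hn0⟩ := hSinf.exists_gt N
      refine ⟨n0, hn0S, fun a ha a' ha' h1 h2 hiff => ?_⟩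
      have e1 : ¬ dn a x := fun h3 => absurd (hN ⟨ha, h3⟩) (by omega)
      have e2 : ¬ dn a' x := fun h3 => absurd (hN ⟨ha', h3⟩) (by omega)
      exact e1 (hiff.2 e2)
    · obtain ⟨N, hN⟩ := h.bddAbove
      obtain ⟨n0, hn0S, hn0⟩ := hSinf.exists_gt N
      refine ⟨n0, hn0S, fun a ha a' ha' h1 h2 hiff => ?_⟩
      have e1 : dn a x := by
        by_contra h3
        exact absurd (hN ⟨ha, h3⟩) (by omega)
      have e2 : dn a' x := by
        by_contra h3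
        exact absurd (hN ⟨ha', h3⟩) (by omega)
      exact hiff.1 e1 e2
  -- bound on i for fixed m
  have hK : ∀ m ∈ First, ∃ K : ℕ, (x ∈ U m → tp m K < x) ∧ (x ∉ U m → x < tm m K) := by
    intro m hmF
    by_cases hx : x ∈ U m
    · obtain ⟨k, hk⟩ := htp2 m hmF.1 x hx
      exact ⟨k, fun _ => hk, fun h => absurd hx h⟩
    · obtain ⟨k, hk⟩ := htm2 m hmF.1 x hx
      exact ⟨k, fun h => absurd h hx, fun _ => hk⟩
  choose! K hK using hK
  refine Set.Finite.subset ((Set.finite_Iio n0).biUnion fun m _ => Set.finite_Iio (K m)) ?_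
  rintro i ⟨hiJ, hzone⟩
  obtain ⟨h3, h4, h5⟩ := hz i hiJ x hzone
  have hmF := hμF i hiJ
  have hmU := hμU i hiJ
  have hmlt : μ i < n0 := by
    by_contra hge
    push Not at hge
    -- largest element of S below μ i
    obtain ⟨a, ⟨haS, ham⟩, hamax⟩ : ∃ a, (a ∈ S ∧ a ≤ μ i) ∧ ∀ b, (b ∈ S ∧ b ≤ μ i) → b ≤ a := by
      have hfin : (S ∩ Set.Iic (μ i)).Finite := (Set.finite_Iic (μ i)).subset Set.inter_subset_right
      have hne : (S ∩ Set.Iic (μ i)).Nonempty := ⟨n0, hn0S, hge⟩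
      obtain ⟨a, ha⟩ := hfin.exists_maximal hne
      refine ⟨a, ha.1, fun b hb => ?_⟩
      by_contra hlt
      push Not at hlt
      exact absurd (ha.2 hb hlt.le) (by omega)
    obtain ⟨a', ha'S, ha'm, hiff⟩ := h5 a haS ham fun b hb1 hb2 => hamax b ⟨hb1, hb2⟩
    have h6 : n0 ≤ a := hamax n0 ⟨hn0S, hge⟩
    exact hn0 a haS a' ha'S h6 (by omega) hiff
  simp only [Set.mem_iUnion, Set.mem_Iio, exists_prop]
  refine ⟨μ i, hmlt, ?_⟩
  by_contra hge
  push Not at hge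
  by_cases hx : x ∈ U i
  · have e1 := h3 hx (K (μ i)) hge
    have e2 := (hK (μ i) hmF).1 (by rw [hmU]; exact hx)
    exact lt_asymm e1 e2
  · have e1 := h4 hx (K (μ i)) hge
    have e2 := (hK (μ i) hmF).2 (by rw [hmU]; exact hx)
    exact lt_asymm e1 e2

end ZoneProof

open ZoneProof in
/-- BLOCK A (zones) -/
theorem zone {C : Set (Set ℕ)} (hC : IsChain (· ⊆ ·) C) (hcard : #C < splittingNumber)
    (M : ℕ → Set ℕ) (J : Set ℕ) (hM : ∀ i ∈ J, (M i).Nonempty ∧ Triv C (M i))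
    (hlo : ∀ i ∈ J, (∃ c ∈ C, Disjoint (M i) c) ∧
      ∀ c ∈ C, Disjoint (M i) c → ∃ c' ∈ C, c ⊂ c' ∧ Disjoint (M i) c')
    (hhi : ∀ i ∈ J, (∃ c ∈ C, M i ⊆ c) ∧
      ∀ c ∈ C, M i ⊆ c → ∃ c' ∈ C, c' ⊂ c ∧ M i ⊆ c') :
    ∃ z : ℕ → Set ℕ, (∀ i ∈ J, z i ∈ C) ∧ ∀ c ∈ C,
      {i | i ∈ J ∧ ((Disjoint (M i) (z i) ∧ z i ⊂ c ∧ Disjoint (M i) c) ∨
        (M i ⊆ z i ∧ M i ⊆ c ∧ c ⊂ z i))}.Finite := by
  classical
  by_cases hne : Nonempty C
  swap
  · refine ⟨fun _ => ∅, fun i hi => ?_, fun c hc => (hne ⟨⟨c, hc⟩⟩).elim⟩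
    obtain ⟨c, hc, _⟩ := (hlo i hi).1
    exact (hne ⟨⟨c, hc⟩⟩).elim
  have htot : ∀ a b : C, a ≤ b ∨ b ≤ a := fun a b => hC.total a.2 b.2
  let _ : LinearOrder C :=
    { (inferInstance : PartialOrder C) with
      le_total := htot
      toDecidableLE := Classical.decRel _ }
  have hdisj : ∀ i ∈ J, ∀ c ∈ C, ¬ (M i ⊆ c) ↔ Disjoint (M i) c := by
    intro i hi c hc
    constructor
    · intro h
      rcases (hM i hi).2 c hc with h' | h'
      · exact absurd h' h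
      · exact h'
    · intro h h'
      obtain ⟨x, hx⟩ := (hM i hi).1
      exact Set.disjoint_left.1 h hx (h' hx)
  obtain ⟨z, hz⟩ := zone_abs (X := C) hcard J (fun i => {c : C | M i ⊆ c.1})
    (fun i _ x y hx hxy => Set.Subset.trans hx hxy)
    (by
      intro i hi
      have h : ∀ n : ℕ, ∃ t : C, ¬ (M i ⊆ t.1) ∧ ((∃ s : C, ¬ (M i ⊆ s.1) ∧ n ∈ s.1) → n ∈ t.1) := by
        intro n
        by_cases h : ∃ s : C, ¬ (M i ⊆ s.1) ∧ n ∈ s.1
        · obtain ⟨s, hs1, hs2⟩ := h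
          exact ⟨s, hs1, fun _ => hs2⟩
        · obtain ⟨c, hc, hc2⟩ := (hlo i hi).1
          exact ⟨⟨c, hc⟩, (hdisj i hi c hc).2 hc2, fun h' => absurd h' h⟩
      choose t ht1 ht2 using h
      refine ⟨t, ht1, fun x hx => ?_⟩
      obtain ⟨c', hc', hlt, hd⟩ := (hlo i hi).2 x.1 x.2 ((hdisj i hi x.1 x.2).1 hx)
      obtain ⟨n, hn1, hn2⟩ := Set.exists_of_ssubset hlt
      refine ⟨n, ?_⟩
      have h3 : n ∈ (t n).1 := ht2 n ⟨⟨c', hc'⟩, (hdisj i hi c' hc').2 hd, hn1⟩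
      refine lt_of_not_ge fun hge => hn2 (hge h3))
    (by
      intro i hi
      have h : ∀ n : ℕ, ∃ t : C, (M i ⊆ t.1) ∧ ((∃ s : C, (M i ⊆ s.1) ∧ n ∉ s.1) → n ∉ t.1) := by
        intro n
        by_cases h : ∃ s : C, (M i ⊆ s.1) ∧ n ∉ s.1
        · obtain ⟨s, hs1, hs2⟩ := h
          exact ⟨s, hs1, fun _ => hs2⟩
        · obtain ⟨c, hc, hc2⟩ := (hhi i hi).1
          exact ⟨⟨c, hc⟩, hc2, fun h' => absurd h' h⟩
      choose t ht1 ht2 using h
      refine ⟨t, ht1, fun x hx => ?_⟩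
      obtain ⟨c', hc', hlt, hd⟩ := (hhi i hi).2 x.1 x.2 hx
      obtain ⟨n, hn1, hn2⟩ := Set.exists_of_ssubset hlt
      refine ⟨n, ?_⟩
      have h3 : n ∉ (t n).1 := ht2 n ⟨⟨c', hc'⟩, hd, hn2⟩
      refine lt_of_not_ge fun hge => h3 (hge hn1))
  refine ⟨fun i => (z i).1, fun i _ => (z i).2, fun c hc => ?_⟩
  refine (hz ⟨c, hc⟩).subset ?_
  rintro i ⟨hi, h⟩
  refine ⟨hi, ?_⟩
  rcases h with ⟨h1, h2, h3⟩ | ⟨h1, h2, h3⟩
  · left
    exact ⟨(hdisj i hi _ (z i).2).2 h1, lt_of_le_not_ge h2.1 h2.2, (hdisj i hi c hc).2 h3⟩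
  · right
    exact ⟨h1, h2, lt_of_le_not_ge h3.1 h3.2⟩

end Pool.Agent.Hia
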